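import Pool.Agent.RHO.Stmts3

/-!
# Row MG2 (evaluation of Magnus coefficients along a walk)
-/

set_option autoImplicit false

namespace Pool.Agent.RHO.H65c

open Finset Pool.Agent.RHO

variable {A D : ℕ}

theorem evl_addm (M : Mt A D) : ∀ (l : ℕ) (m m' : List (Fin D) → ZMod 2) (r : ℕ)
    (u : Fin A → ZMod 2),
    evl M (fun y => m y + m' y) r l u = evl M m r l u + evl M m' r l u := by
  intro l
  induction l with
  | zero =>
    intro m m' r u
    simp only [evl]
    rw [add_smul]
  | succ l ih =>
    intro m m' r u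
    simp only [evl]
    rw [← Finset.sum_add_distrib]
    exact Finset.sum_congr rfl fun i _ => ih _ _ _ _

theorem evl_addu (M : Mt A D) : ∀ (l : ℕ) (m : List (Fin D) → ZMod 2) (r : ℕ)
    (u v : Fin A → ZMod 2),
    evl M m r l (u + v) = evl M m r l u + evl M m r l v := by
  intro l
  induction l with
  | zero =>
    intro m r u v
    simp only [evl]
    rw [smul_add]
  | succ l ih =>
    intro m r u v
    simp only [evl]
    rw [← Finset.sum_add_distrib]
    refine Finset.sum_congr rfl fun i _ => ?_
    rw [Matrix.mulVec_add]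
    exact ih _ _ _ _

theorem evl_zero (M : Mt A D) : ∀ (l : ℕ) (r : ℕ) (u : Fin A → ZMod 2),
    evl M (fun _ => 0) r l u = 0 := by
  intro l
  induction l with
  | zero =>
    intro r u
    simp only [evl]
    rw [zero_smul]
  | succ l ih =>
    intro r u
    simp only [evl]
    exact Finset.sum_eq_zero fun i _ => ih _ _

theorem evl_mgP (M : Mt A D) (i : Fin D) (m : List (Fin D) → ZMod 2) (r l : ℕ)
    (u : Fin A → ZMod 2) :
    evl M (mgP i m) r (l + 1) u = evl M m r (l + 1) u + evl M m (r + 1) l ((M r i).mulVec u) := by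
  simp only [evl, mgP]
  have h : ∀ j : Fin D, evl M (fun y => m (j :: y) + if j = i then m y else 0) (r + 1) l
      ((M r j).mulVec u) = evl M (fun y => m (j :: y)) (r + 1) l ((M r j).mulVec u) +
      if j = i then evl M m (r + 1) l ((M r i).mulVec u) else 0 := by
    intro j
    rw [evl_addm]
    by_cases hj : j = i
    · subst hj
      simp only [if_true]
    · simp only [if_neg hj]
      rw [evl_zero]
  rw [Finset.sum_congr rfl fun j _ => h j, Finset.sum_add_distrib,
    Finset.sum_ite_eq' Finset.univ i]
  simp only [Finset.mem_univ, if_true]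

theorem evl_mgP_zero (M : Mt A D) (i : Fin D) (m : List (Fin D) → ZMod 2) (r : ℕ)
    (u : Fin A → ZMod 2) :
    evl M (mgP i m) r 0 u = evl M m r 0 u := by
  simp only [evl, mgP]

theorem key (M : Mt A D) (i : Fin D) (z z' : ℕ → Fin A → ZMod 2) (h : Stp M i z z')
    (m : List (Fin D) → ZMod 2) (j : ℕ) :
    ∑ r ∈ range (j + 1), evl M m r (j - r) (z' r) =
      ∑ r ∈ range (j + 1), evl M (mgP i m) r (j - r) (z r) := by
  have e1 : ∑ r ∈ range (j + 1), evl M m r (j - r) (z' r) =
      (∑ r ∈ range (j + 1), evl M m r (j - r) (z r)) +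
        ∑ r ∈ range j, evl M m (r + 1) (j - (r + 1)) ((M r i).mulVec (z r)) := by
    rw [Finset.sum_range_succ', Finset.sum_range_succ' (fun r => evl M m r (j - r) (z r)), h.1]
    have e : ∀ r ∈ range j, evl M m (r + 1) (j - (r + 1)) (z' (r + 1)) =
        evl M m (r + 1) (j - (r + 1)) (z (r + 1)) +
          evl M m (r + 1) (j - (r + 1)) ((M r i).mulVec (z r)) := by
      intro r _
      rw [h.2 r, evl_addu]
    rw [Finset.sum_congr rfl e, Finset.sum_add_distrib]
    abel
  have e2 : ∑ r ∈ range (j + 1), evl M (mgP i m) r (j - r) (z r) =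
      (∑ r ∈ range (j + 1), evl M m r (j - r) (z r)) +
        ∑ r ∈ range j, evl M m (r + 1) (j - (r + 1)) ((M r i).mulVec (z r)) := by
    rw [Finset.sum_range_succ, Finset.sum_range_succ (fun r => evl M m r (j - r) (z r))]
    have e : ∀ r ∈ range j, evl M (mgP i m) r (j - r) (z r) =
        evl M m r (j - r) (z r) +
          evl M m (r + 1) (j - (r + 1)) ((M r i).mulVec (z r)) := by
      intro r hr
      have hr' : r < j := Finset.mem_range.1 hr
      obtain ⟨l, hl⟩ : ∃ l, j - r = l + 1 := ⟨j - (r + 1), by omega⟩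
      have hl' : j - (r + 1) = l := by omega
      rw [hl, hl', evl_mgP]
    rw [Finset.sum_congr rfl e, Finset.sum_add_distrib]
    have e0 : evl M (mgP i m) j (j - j) (z j) = evl M m j (j - j) (z j) := by
      rw [Nat.sub_self, evl_mgP_zero]
    rw [e0]
    abel
  rw [e1, e2]

theorem mgP_mgL (i : Fin D) (m : List (Fin D) → ZMod 2) : mgP i (mgL i m) = m := by
  funext y
  cases y with
  | nil => simp only [mgP, mgL]
  | cons j y =>
    simp only [mgP, mgL]
    by_cases hj : j = i
    · simp only [hj, if_true]
      rw [add_assoc, CharTwo.add_self_eq_zero, add_zero]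
    · simp only [if_neg hj, add_zero]

theorem mg_nil (b : Bool) (y : List (Fin D)) :
    (mg b ([] : List (Fin D)) : List (Fin D) → ZMod 2) y = if y = [] then 1 else 0 := by
  cases b <;> simp only [mg]

theorem mg2 : MG2Stmt := by
  intro A D M b z z' L h
  induction h with
  | nil b z =>
    intro j
    rw [Finset.sum_range_succ]
    have e : ∀ r ∈ range j, evl M (mg b []) r (j - r) (z r) = 0 := by
      intro r hr
      have hr' : r < j := Finset.mem_range.1 hr
      obtain ⟨l, hl⟩ : ∃ l, j - r = l + 1 := ⟨j - (r + 1), by omega⟩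
      rw [hl]
      simp only [evl]
      refine Finset.sum_eq_zero fun i _ => ?_
      have e' : (fun y : List (Fin D) => mg b ([] : List (Fin D)) (i :: y)) =
          fun _ => (0 : ZMod 2) := by
        funext y
        rw [mg_nil, if_neg (List.cons_ne_nil i y)]
      rw [e', evl_zero]
    rw [Finset.sum_eq_zero e, zero_add, Nat.sub_self]
    simp only [evl]
    rw [mg_nil, if_pos rfl, one_smul]
  | up z z' z'' i L hs hw ih =>
    intro j
    rw [ih j, key M i z z' hs]
    rfl
  | dn z z' z'' i L hs hw ih =>
    intro j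
    rw [ih j]
    have e := key M i z' z hs (mgL i (mg true L)) j
    rw [mgP_mgL] at e
    rw [← e]
    rfl

end Pool.Agent.RHO.H65c
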